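import Pool.Agent.H85.PS.Targets

/-!
The arithmetic type of the power series of the logarithm.
-/

set_option autoImplicit false

open Polynomial Finset Pool.Agent.H85.PS

namespace Pool.Agent.H89.PSV

theorem pf_TYL : T_TYL := by
  intro q c hq i
  obtain ⟨z, hz⟩ := hq
  rcases Nat.eq_zero_or_pos i with rfl | hi
  · refine ⟨0, ?_⟩
    unfold lg
    rw [PowerSeries.coeff_mk]
    simp
  · have hd : i ∣ Nat.lcmUpto i := by
      unfold Nat.lcmUpto
      exact Finset.dvd_lcm (f := id) (Finset.mem_Icc.2 ⟨hi, le_refl i⟩)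
    obtain ⟨m, hm⟩ := hd
    have hi0 : (i : ℚ) ≠ 0 := by
      have : i ≠ 0 := by omega
      exact_mod_cast this
    refine ⟨z ^ i * (-1) ^ (i + 1) * m, ?_⟩
    unfold lg
    rw [PowerSeries.coeff_mk, hm]
    push_cast
    rw [← hz, pow_one, mul_pow]
    field_simp

end Pool.Agent.H89.PSV
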